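import Mathlib

set_option autoImplicit false

open scoped commutatorElement

namespace Pool.Agent.Results.MP_15c144_al.MacdonaldCamina

/-- `(G, N)` is a Camina pair: `N` is a normal subgroup with `1 < N < G` and, for every `g` outside
`N`, the conjugacy class of `g` contains the whole coset `g N`. -/
def IsCaminaPair {G : Type} [Group G] (N : Subgroup G) : Prop :=
  N.Normal ∧ N ≠ ⊥ ∧ N ≠ ⊤ ∧ ∀ g : G, g ∉ N → ∀ n ∈ N, IsConj g (g * n)

/-- The lower central series in the classical indexing: `gamma G 1 = G`,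
`gamma G (i + 1) = [gamma G i, G]`. -/
def gamma (G : Type) [Group G] (i : ℕ) : Subgroup G := (⊤ : Subgroup G).lowerCentralSeries (i - 1)

/-! ### The group -/

section Construction

variable {K E : Type} [Field K] [Field E]

/-- The underlying set of the group; `eta`, `e0`, `e1` are parameters. -/
@[ext]
structure Q (eta : E) (e0 e1 : E →+ K) where
  a : E
  b : E
  c : E
  x : E
  u : E
  v : E
  z : K

variable {eta : E} {e0 e1 : E →+ K}

/-- The cocycle for the last coordinate. -/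
def cocy (g h : Q eta e0 e1) : E :=
  6 * g.a * h.u + 3 * g.a ^ 2 * h.x + 2 * g.a ^ 3 * h.b - 6 * g.a * h.b * h.c
    - 3 * g.c * (h.x + 2 * g.a * h.b)

instance : Mul (Q eta e0 e1) where
  mul g h :=
    { a := g.a + h.a
      b := g.b + h.b
      c := g.c + h.c
      x := g.x + h.x + 2 * g.a * h.b
      u := g.u + h.u + g.a * h.x + g.a ^ 2 * h.b + g.b * h.c
      v := g.v + h.v + eta * g.a * h.c + g.a * h.b ^ 2 + g.b * (h.x + 2 * g.a * h.b)
      z := g.z + h.z + e0 (cocy g h) + e0 g.b * e1 h.b }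

instance : One (Q eta e0 e1) where
  one := { a := 0, b := 0, c := 0, x := 0, u := 0, v := 0, z := 0 }

/-- The inverse without its last coordinate. -/
def inv0 (g : Q eta e0 e1) : Q eta e0 e1 where
  a := -g.a
  b := -g.b
  c := -g.c
  x := -g.x + 2 * g.a * g.b
  u := -g.u + g.a * g.x - g.a ^ 2 * g.b + g.b * g.c
  v := -g.v + eta * g.a * g.c - g.a * g.b ^ 2 + g.b * g.x
  z := 0

instance : Inv (Q eta e0 e1) where
  inv g := { inv0 g with z := -g.z - e0 (cocy g (inv0 g)) + e0 g.b * e1 g.b }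

@[simp] theorem mul_a (g h : Q eta e0 e1) : (g * h).a = g.a + h.a := rfl
@[simp] theorem mul_b (g h : Q eta e0 e1) : (g * h).b = g.b + h.b := rfl
@[simp] theorem mul_c (g h : Q eta e0 e1) : (g * h).c = g.c + h.c := rfl
@[simp] theorem mul_x (g h : Q eta e0 e1) : (g * h).x = g.x + h.x + 2 * g.a * h.b := rfl
@[simp] theorem mul_u (g h : Q eta e0 e1) :
    (g * h).u = g.u + h.u + g.a * h.x + g.a ^ 2 * h.b + g.b * h.c := rfl
@[simp] theorem mul_v (g h : Q eta e0 e1) :
    (g * h).v = g.v + h.v + eta * g.a * h.c + g.a * h.b ^ 2 + g.b * (h.x + 2 * g.a * h.b) := rfl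
@[simp] theorem mul_z (g h : Q eta e0 e1) :
    (g * h).z = g.z + h.z + e0 (cocy g h) + e0 g.b * e1 h.b := rfl
@[simp] theorem one_a : (1 : Q eta e0 e1).a = 0 := rfl
@[simp] theorem one_b : (1 : Q eta e0 e1).b = 0 := rfl
@[simp] theorem one_c : (1 : Q eta e0 e1).c = 0 := rfl
@[simp] theorem one_x : (1 : Q eta e0 e1).x = 0 := rfl
@[simp] theorem one_u : (1 : Q eta e0 e1).u = 0 := rfl
@[simp] theorem one_v : (1 : Q eta e0 e1).v = 0 := rfl
@[simp] theorem one_z : (1 : Q eta e0 e1).z = 0 := rfl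

theorem cocy_assoc (g h k : Q eta e0 e1) :
    cocy g h + cocy (g * h) k = cocy h k + cocy g (h * k) := by
  simp only [cocy, mul_a, mul_b, mul_c, mul_x, mul_u]
  ring

theorem cocy_one (g : Q eta e0 e1) : cocy g 1 = 0 := by
  simp [cocy]

instance : Group (Q eta e0 e1) :=
  Group.ofRightAxioms
    (by
      intro g h k
      ext
      · simp only [mul_a]; ring
      · simp only [mul_b]; ring
      · simp only [mul_c]; ring
      · simp only [mul_x, mul_a, mul_b]; ring
      · simp only [mul_u, mul_x, mul_a, mul_b, mul_c]; ring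
      · simp only [mul_v, mul_x, mul_a, mul_b, mul_c]; ring
      · have h1 := congrArg e0 (cocy_assoc g h k)
        rw [map_add, map_add] at h1
        simp only [mul_z, mul_b, map_add]
        linear_combination h1)
    (by
      intro g
      ext
      · simp
      · simp
      · simp
      · simp
      · simp
      · simp
      · simp [cocy_one])
    (by
      intro g
      ext
      · show g.a + -g.a = 0
        ring
      · show g.b + -g.b = 0
        ring
      · show g.c + -g.c = 0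
        ring
      · show g.x + (-g.x + 2 * g.a * g.b) + 2 * g.a * (-g.b) = 0
        ring
      · show g.u + (-g.u + g.a * g.x - g.a ^ 2 * g.b + g.b * g.c) +
          g.a * (-g.x + 2 * g.a * g.b) + g.a ^ 2 * (-g.b) + g.b * (-g.c) = 0
        ring
      · show g.v + (-g.v + eta * g.a * g.c - g.a * g.b ^ 2 + g.b * g.x) + eta * g.a * (-g.c) +
          g.a * (-g.b) ^ 2 + g.b * ((-g.x + 2 * g.a * g.b) + 2 * g.a * (-g.b)) = 0
        ring
      · show g.z + (-g.z - e0 (cocy g (inv0 g)) + e0 g.b * e1 g.b) + e0 (cocy g (inv0 g)) +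
          e0 g.b * e1 (-g.b) = 0
        rw [map_neg]
        ring)

/-! ### Solving the commutator equation -/

/-- The elements of the third term of the lower central series. -/
def kk (us vs : E) (zs : K) : Q eta e0 e1 :=
  { a := 0, b := 0, c := 0, x := 0, u := us, v := vs, z := zs }

theorem conj_aux (g h : Q eta e0 e1) (us vs : E) (zs : K)
    (hx : h.a * g.b = g.a * h.b)
    (hu : us = h.a * g.x - g.a * h.x + h.a ^ 2 * g.b - g.a ^ 2 * h.b + h.b * g.c - g.b * h.c)
    (hv : vs = eta * (h.a * g.c - g.a * h.c) + h.b * g.x - g.b * h.x + h.a * g.b ^ 2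
      - g.a * h.b ^ 2 + 2 * h.b * h.a * g.b - 2 * g.b * g.a * h.b)
    (hz : zs + e0 (6 * g.a * us) + e0 (cocy g h) + e0 g.b * e1 h.b =
      e0 (cocy h g) + e0 h.b * e1 g.b) :
    h * g = g * kk us vs zs * h := by
  have hc1 : cocy g (kk us vs zs : Q eta e0 e1) = 6 * g.a * us := by
    simp [cocy, kk]
  have hc2 : cocy (g * kk us vs zs) h = cocy g h := by
    simp [cocy, kk]
  ext
  · simp only [kk, mul_a]
    ring
  · simp only [kk, mul_b]
    ring
  · simp only [kk, mul_c]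
    ring
  · simp only [kk, mul_x, mul_a]
    linear_combination 2 * hx
  · simp only [kk, mul_u, mul_a, mul_b]
    linear_combination (-1 : E) * hu
  · simp only [kk, mul_v, mul_a, mul_b]
    linear_combination (-1 : E) * hv
  · rw [mul_z, mul_z, mul_z, hc1, hc2]
    simp only [kk, mul_b, map_zero, add_zero]
    linear_combination (-1 : K) * hz

theorem solve_a (h2 : (2 : E) ≠ 0) (h3 : (3 : E) ≠ 0)
    (hdet : ∀ s t : E, eta * s ^ 2 = t ^ 2 → s = 0 ∧ t = 0) (he0 : Function.Surjective e0)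
    (g : Q eta e0 e1) (hg : g.a ≠ 0) (us vs : E) (zs : K) :
    ∃ h : Q eta e0 e1, h * g = g * kk us vs zs * h := by
  obtain ⟨e, he⟩ := he0 zs
  have hD : eta * g.a ^ 2 - g.b ^ 2 ≠ 0 := by
    intro h
    exact hg (hdet _ _ (sub_eq_zero.1 h)).1
  have h6 : 6 * g.a ≠ 0 := by
    have : (6 : E) = 2 * 3 := by norm_num
    rw [this]
    exact mul_ne_zero (mul_ne_zero h2 h3) hg
  obtain ⟨D, hD⟩ : ∃ D, D * (eta * g.a ^ 2 - g.b ^ 2) = 1 := ⟨_, inv_mul_cancel₀ hD⟩
  obtain ⟨S, hS⟩ : ∃ S, S * (6 * g.a) = 1 := ⟨_, inv_mul_cancel₀ h6⟩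
  let x' : E := D * (vs * g.b - us * (eta * g.a))
  let c' : E := D * (us * g.b - vs * g.a)
  let u' : E := S * (-3 * c' * g.x - 3 * g.a ^ 2 * x' + 3 * g.c * x' - 6 * g.a * us - e)
  let h : Q eta e0 e1 :=
    { a := 0, b := 0, c := c', x := x', u := u', v := 0, z := 0 }
  refine ⟨h, conj_aux g h us vs zs ?_ ?_ ?_ ?_⟩
  · simp [h]
  · simp only [h, x', c']
    linear_combination (-us) * hD
  · simp only [h, x', c']
    linear_combination (-vs) * hD
  · have h4 : e + 6 * g.a * us + cocy g h = cocy h g := by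
      simp only [cocy, h, u']
      linear_combination (-3 * c' * g.x - 3 * g.a ^ 2 * x' + 3 * g.c * x' - 6 * g.a * us - e) * hS
    have h5 := congrArg e0 h4
    rw [map_add, map_add, he] at h5
    simp only [h, map_zero, mul_zero, zero_mul, add_zero] at h5 ⊢
    exact h5

theorem solve_b
    (he : ∀ b : E, b ≠ 0 → ∀ w : K, ∃ b' : E, e0 b' * e1 b - e0 b * e1 b' = w)
    (g : Q eta e0 e1) (hga : g.a = 0) (hg : g.b ≠ 0) (us vs : E) (zs : K) :
    ∃ h : Q eta e0 e1, h * g = g * kk us vs zs * h := by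
  obtain ⟨S, hS⟩ : ∃ S, S * g.b = 1 := ⟨_, inv_mul_cancel₀ hg⟩
  obtain ⟨b', hb'⟩ := he g.b hg (zs - e0 (3 * S * (us * g.x - g.c * vs)))
  let c' : E := S * (b' * g.c - us)
  let x' : E := S * (b' * g.x - vs)
  let h : Q eta e0 e1 :=
    { a := 0, b := b', c := c', x := x', u := 0, v := 0, z := 0 }
  refine ⟨h, conj_aux g h us vs zs ?_ ?_ ?_ ?_⟩
  · simp [h, hga]
  · simp only [h, x', c', hga]
    linear_combination (b' * g.c - us) * hS
  · simp only [h, x', c', hga]
    linear_combination (b' * g.x - vs) * hS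
  · have h4 : 3 * S * (us * g.x - g.c * vs) +
        cocy g h = cocy h g := by
      simp only [cocy, h, hga, x', c']
      ring
    have h5 := congrArg e0 h4
    rw [map_add] at h5
    simp only [h, hga, mul_zero, zero_mul, map_zero, add_zero] at h5 ⊢
    linear_combination h5 - hb'

theorem solve_c (h3 : (3 : E) ≠ 0)
    (hdet : ∀ s t : E, eta * s ^ 2 = t ^ 2 → s = 0 ∧ t = 0) (he0 : Function.Surjective e0)
    (g : Q eta e0 e1) (hga : g.a = 0) (hgb : g.b = 0) (hg : g.c ≠ 0 ∨ g.x ≠ 0)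
    (us vs : E) (zs : K) :
    ∃ h : Q eta e0 e1, h * g = g * kk us vs zs * h := by
  obtain ⟨e, he⟩ := he0 zs
  have hD : g.x ^ 2 - eta * g.c ^ 2 ≠ 0 := by
    intro h
    obtain ⟨h4, h5⟩ := hdet _ _ (sub_eq_zero.1 h).symm
    rcases hg with hg | hg
    · exact hg h4
    · exact hg h5
  obtain ⟨D, hD⟩ : ∃ D, D * (g.x ^ 2 - eta * g.c ^ 2) = 1 := ⟨_, inv_mul_cancel₀ hD⟩
  let a' : E := D * (us * g.x - vs * g.c)
  let b' : E := D * (vs * g.x - eta * us * g.c)
  obtain ⟨c', x', hcx⟩ : ∃ c' x' : E, 6 * a' * g.u + 3 * a' ^ 2 * g.x - 3 * c' * g.x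
      + 3 * g.c * x' = e := by
    by_cases hc : g.c = 0
    · have hx : g.x ≠ 0 := by
        rcases hg with hg | hg
        · exact absurd hc hg
        · exact hg
      obtain ⟨S, hS⟩ : ∃ S, S * (3 * g.x) = 1 := ⟨_, inv_mul_cancel₀ (mul_ne_zero h3 hx)⟩
      refine ⟨S * (6 * a' * g.u + 3 * a' ^ 2 * g.x - e), 0, ?_⟩
      linear_combination (-(6 * a' * g.u + 3 * a' ^ 2 * g.x - e)) * hS
    · obtain ⟨S, hS⟩ : ∃ S, S * (3 * g.c) = 1 := ⟨_, inv_mul_cancel₀ (mul_ne_zero h3 hc)⟩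
      refine ⟨0, S * (e - 6 * a' * g.u - 3 * a' ^ 2 * g.x), ?_⟩
      linear_combination (e - 6 * a' * g.u - 3 * a' ^ 2 * g.x) * hS
  let h : Q eta e0 e1 :=
    { a := a', b := b', c := c', x := x', u := 0, v := 0, z := 0 }
  refine ⟨h, conj_aux g h us vs zs ?_ ?_ ?_ ?_⟩
  · simp [h, hga, hgb]
  · simp only [h, a', b', hga, hgb]
    linear_combination (-us) * hD
  · simp only [h, a', b', hga, hgb]
    linear_combination (-vs) * hD
  · have h4 : e + cocy g h = cocy h g := by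
      simp only [cocy, h, hga, hgb]
      linear_combination (-1 : E) * hcx
    have h5 := congrArg e0 h4
    rw [map_add, he] at h5
    simp only [h, hga, hgb, mul_zero, zero_mul, map_zero, add_zero] at h5 ⊢
    exact h5

/-! ### The lower central series -/

/-- Upper bound for the second term. -/
def N2 (eta : E) (e0 e1 : E →+ K) : Subgroup (Q eta e0 e1) where
  carrier := {g | g.a = 0 ∧ g.b = 0 ∧ g.c = 0}
  mul_mem' := by
    rintro g h ⟨h1, h2, h3⟩ ⟨h4, h5, h6⟩
    refine ⟨?_, ?_, ?_⟩ <;> simp [h1, h2, h3, h4, h5, h6]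
  one_mem' := ⟨rfl, rfl, rfl⟩
  inv_mem' := by
    rintro g ⟨h1, h2, h3⟩
    refine ⟨?_, ?_, ?_⟩
    · show -g.a = 0
      rw [h1, neg_zero]
    · show -g.b = 0
      rw [h2, neg_zero]
    · show -g.c = 0
      rw [h3, neg_zero]

/-- The third term. -/
def N3 (eta : E) (e0 e1 : E →+ K) : Subgroup (Q eta e0 e1) where
  carrier := {g | g.a = 0 ∧ g.b = 0 ∧ g.c = 0 ∧ g.x = 0}
  mul_mem' := by
    rintro g h ⟨h1, h2, h3, h4⟩ ⟨h5, h6, h7, h8⟩
    refine ⟨?_, ?_, ?_, ?_⟩ <;> simp [h1, h2, h3, h4, h5, h6, h7, h8]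
  one_mem' := ⟨rfl, rfl, rfl, rfl⟩
  inv_mem' := by
    rintro g ⟨h1, h2, h3, h4⟩
    refine ⟨?_, ?_, ?_, ?_⟩
    · show -g.a = 0
      rw [h1, neg_zero]
    · show -g.b = 0
      rw [h2, neg_zero]
    · show -g.c = 0
      rw [h3, neg_zero]
    · show -g.x + 2 * g.a * g.b = 0
      rw [h1, h4]
      ring

/-- Upper bound for the fourth term. -/
def N4 (eta : E) (e0 e1 : E →+ K) : Subgroup (Q eta e0 e1) where
  carrier := {g | (g.a = 0 ∧ g.b = 0 ∧ g.c = 0 ∧ g.x = 0) ∧ g.u = 0 ∧ g.v = 0}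
  mul_mem' := by
    rintro g h ⟨⟨h1, h2, h3, h4⟩, h9, h10⟩ ⟨⟨h5, h6, h7, h8⟩, h11, h12⟩
    refine ⟨⟨?_, ?_, ?_, ?_⟩, ?_, ?_⟩ <;> simp [h1, h2, h3, h4, h5, h6, h7, h8, h9, h10, h11, h12]
  one_mem' := ⟨⟨rfl, rfl, rfl, rfl⟩, rfl, rfl⟩
  inv_mem' := by
    rintro g ⟨⟨h1, h2, h3, h4⟩, h9, h10⟩
    refine ⟨⟨?_, ?_, ?_, ?_⟩, ?_, ?_⟩
    · show -g.a = 0
      rw [h1, neg_zero]
    · show -g.b = 0
      rw [h2, neg_zero]
    · show -g.c = 0
      rw [h3, neg_zero]
    · show -g.x + 2 * g.a * g.b = 0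
      rw [h1, h4]
      ring
    · show -g.u + g.a * g.x - g.a ^ 2 * g.b + g.b * g.c = 0
      rw [h1, h2, h9]
      ring
    · show -g.v + eta * g.a * g.c - g.a * g.b ^ 2 + g.b * g.x = 0
      rw [h1, h2, h10]
      ring

theorem comm_eq (g h : Q eta e0 e1) : ⁅g, h⁆ * (h * g) = g * h := by
  rw [commutatorElement_def]
  group

theorem comm_a (g h : Q eta e0 e1) : ⁅g, h⁆.a = 0 := by
  have := congrArg Q.a (comm_eq g h)
  simp only [mul_a] at this
  linear_combination this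

theorem comm_b (g h : Q eta e0 e1) : ⁅g, h⁆.b = 0 := by
  have := congrArg Q.b (comm_eq g h)
  simp only [mul_b] at this
  linear_combination this

theorem comm_c (g h : Q eta e0 e1) : ⁅g, h⁆.c = 0 := by
  have := congrArg Q.c (comm_eq g h)
  simp only [mul_c] at this
  linear_combination this

theorem comm_x (g h : Q eta e0 e1) : ⁅g, h⁆.x = 2 * (g.a * h.b - h.a * g.b) := by
  have := congrArg Q.x (comm_eq g h)
  simp only [mul_x, mul_b, comm_a] at this
  linear_combination this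

theorem comm_mem_N3 {g : Q eta e0 e1} (hg : g ∈ N2 eta e0 e1) (h : Q eta e0 e1) :
    ⁅g, h⁆ ∈ N3 eta e0 e1 := by
  obtain ⟨h1, h2, h3⟩ := hg
  refine ⟨comm_a g h, comm_b g h, comm_c g h, ?_⟩
  rw [comm_x, h1, h2]
  ring

theorem comm_mem_N4 {g : Q eta e0 e1} (hg : g ∈ N3 eta e0 e1) (h : Q eta e0 e1) :
    ⁅g, h⁆ ∈ N4 eta e0 e1 := by
  obtain ⟨h1, h2, h3, h4⟩ := hg
  refine ⟨comm_mem_N3 ⟨h1, h2, h3⟩ h, ?_, ?_⟩
  · have := congrArg Q.u (comm_eq g h)
    simp only [mul_u, mul_x, mul_b, mul_c, comm_a, comm_b, h1, h2, h3, h4] at this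
    linear_combination this
  · have := congrArg Q.v (comm_eq g h)
    simp only [mul_v, mul_x, mul_b, mul_c, comm_a, comm_b, h1, h2, h3, h4] at this
    linear_combination this

theorem gamma_two_le : gamma (Q eta e0 e1) 2 ≤ N2 eta e0 e1 := by
  show ⁅(⊤ : Subgroup (Q eta e0 e1)), (⊤ : Subgroup (Q eta e0 e1))⁆ ≤ _
  rw [Subgroup.commutator_le]
  intro g _ h _
  exact ⟨comm_a g h, comm_b g h, comm_c g h⟩

theorem gamma_three_le : gamma (Q eta e0 e1) 3 ≤ N3 eta e0 e1 := by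
  show ⁅gamma (Q eta e0 e1) 2, (⊤ : Subgroup (Q eta e0 e1))⁆ ≤ _
  rw [Subgroup.commutator_le]
  intro g hg h _
  exact comm_mem_N3 (gamma_two_le hg) h

theorem gamma_four_le : gamma (Q eta e0 e1) 4 ≤ N4 eta e0 e1 := by
  show ⁅gamma (Q eta e0 e1) 3, (⊤ : Subgroup (Q eta e0 e1))⁆ ≤ _
  rw [Subgroup.commutator_le]
  intro g hg h _
  exact comm_mem_N4 (gamma_three_le hg) h

theorem le_gamma_three (h2 : (2 : E) ≠ 0) (h3 : (3 : E) ≠ 0)
    (hdet : ∀ s t : E, eta * s ^ 2 = t ^ 2 → s = 0 ∧ t = 0) (he0 : Function.Surjective e0) :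
    N3 eta e0 e1 ≤ gamma (Q eta e0 e1) 3 := by
  rintro k ⟨k1, k2, k3, k4⟩
  let s : Q eta e0 e1 := { a := 1, b := 0, c := 0, x := 0, u := 0, v := 0, z := 0 }
  let t : Q eta e0 e1 := { a := 0, b := 1, c := 0, x := 0, u := 0, v := 0, z := 0 }
  have hg : ⁅s, t⁆ ∈ gamma (Q eta e0 e1) 2 :=
    Subgroup.commutator_mem_commutator (Subgroup.mem_top _) (Subgroup.mem_top _)
  have hx : ⁅s, t⁆.x ≠ 0 := by
    rw [comm_x]
    simp [s, t, h2]
  obtain ⟨h, hh⟩ := solve_c h3 hdet he0 ⁅s, t⁆ (comm_a s t) (comm_b s t) (Or.inr hx) k.u k.v k.z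
  have hk : k = kk k.u k.v k.z := by
    ext
    · exact k1
    · exact k2
    · exact k3
    · exact k4
    · rfl
    · rfl
    · rfl
  rw [← hk] at hh
  have h4 : k = ⁅⁅s, t⁆⁻¹, h⁆ := by
    rw [commutatorElement_def, inv_inv, mul_assoc (⁅s, t⁆⁻¹) h, hh]
    group
  rw [h4]
  exact Subgroup.commutator_mem_commutator (inv_mem hg) (Subgroup.mem_top _)

theorem gamma_four_ne_bot (h2 : (2 : E) ≠ 0) (h3 : (3 : E) ≠ 0)
    (hdet : ∀ s t : E, eta * s ^ 2 = t ^ 2 → s = 0 ∧ t = 0) (he0 : Function.Surjective e0) :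
    gamma (Q eta e0 e1) 4 ≠ ⊥ := by
  intro hbot
  obtain ⟨e, he⟩ := he0 1
  have h6 : (6 : E) ≠ 0 := by
    have : (6 : E) = 2 * 3 := by norm_num
    rw [this]
    exact mul_ne_zero h2 h3
  obtain ⟨S, hS⟩ : ∃ S : E, S * 6 = 1 := ⟨_, inv_mul_cancel₀ h6⟩
  let g : Q eta e0 e1 := kk 1 0 0
  let s : Q eta e0 e1 := { a := S * e, b := 0, c := 0, x := 0, u := 0, v := 0, z := 0 }
  have hg : g ∈ gamma (Q eta e0 e1) 3 :=
    le_gamma_three h2 h3 hdet he0 ⟨rfl, rfl, rfl, rfl⟩
  have h4 : ⁅g, s⁆ ∈ gamma (Q eta e0 e1) 4 :=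
    Subgroup.commutator_mem_commutator hg (Subgroup.mem_top _)
  rw [hbot, Subgroup.mem_bot] at h4
  have h5 := congrArg Q.z (comm_eq g s)
  rw [h4, one_mul, mul_z, mul_z] at h5
  have e1' : cocy s g = e := by
    simp only [cocy, g, s, kk]
    linear_combination e * hS
  have e2' : cocy g s = 0 := by
    simp [cocy, g, s, kk]
  rw [e1', e2', he] at h5
  simp [g, s, kk] at h5

theorem camina_three (h2 : (2 : E) ≠ 0) (h3 : (3 : E) ≠ 0)
    (hdet : ∀ s t : E, eta * s ^ 2 = t ^ 2 → s = 0 ∧ t = 0) (he0 : Function.Surjective e0)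
    (he : ∀ b : E, b ≠ 0 → ∀ w : K, ∃ b' : E, e0 b' * e1 b - e0 b * e1 b' = w) :
    IsCaminaPair (gamma (Q eta e0 e1) 3) := by
  refine ⟨?_, ?_, ?_, ?_⟩
  · unfold gamma
    infer_instance
  · intro h
    apply gamma_four_ne_bot (eta := eta) (e0 := e0) (e1 := e1) h2 h3 hdet he0
    rw [eq_bot_iff, ← h]
    exact Subgroup.lowerCentralSeries_antitone _ (by norm_num)
  · intro h
    have h4 : ({ a := 1, b := 0, c := 0, x := 0, u := 0, v := 0, z := 0 } : Q eta e0 e1) ∈
        N3 eta e0 e1 := gamma_three_le (by rw [h]; exact Subgroup.mem_top _)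
    exact one_ne_zero h4.1
  · intro g hg n hn
    have hg' : g ∉ N3 eta e0 e1 := fun h => hg (le_gamma_three h2 h3 hdet he0 h)
    obtain ⟨n1, n2, n3, n4⟩ := gamma_three_le hn
    have hk : n = kk n.u n.v n.z := by
      ext
      · exact n1
      · exact n2
      · exact n3
      · exact n4
      · rfl
      · rfl
      · rfl
    have key : ∃ h : Q eta e0 e1, h * g = g * kk n.u n.v n.z * h := by
      by_cases ha : g.a = 0
      · by_cases hb : g.b = 0
        · apply solve_c h3 hdet he0 g ha hb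
          by_contra h
          push Not at h
          exact hg' ⟨ha, hb, h.1, h.2⟩
        · exact solve_b he g ha hb _ _ _
      · exact solve_a h2 h3 hdet he0 g ha _ _ _
    obtain ⟨h, hh⟩ := key
    rw [isConj_iff]
    exact ⟨h, by rw [hh, ← hk, mul_inv_cancel_right]⟩

theorem central_v (h : Q eta e0 e1) : h * kk 0 1 0 = kk 0 1 0 * h := by
  ext <;> simp [kk, cocy, add_comm]

theorem not_camina_four :
    ¬ IsCaminaPair (gamma (Q eta e0 e1) 4) := by
  rintro ⟨_, hbot, _, hC⟩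
  obtain ⟨n, hn1⟩ := (Subgroup.ne_bot_iff_exists_ne_one).1 hbot
  have hg : (kk 0 1 0 : Q eta e0 e1) ∉ gamma (Q eta e0 e1) 4 := by
    intro h
    exact one_ne_zero (gamma_four_le h).2.2
  have h4 := hC _ hg n.1 n.2
  rw [isConj_iff] at h4
  obtain ⟨c, hc⟩ := h4
  rw [central_v, mul_inv_cancel_right] at hc
  exact hn1 (Subtype.ext (mul_eq_left.1 hc.symm))

end Construction

/-! ### Choice of parameters -/

theorem card_Q {K E : Type} [Field K] [Field E] (eta : E) (e0 e1 : E →+ K) :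
    Nat.card (Q eta e0 e1) = Nat.card E ^ 6 * Nat.card K := by
  let f : Q eta e0 e1 ≃ E × E × E × E × E × E × K :=
    { toFun := fun g => (g.a, g.b, g.c, g.x, g.u, g.v, g.z)
      invFun := fun t => ⟨t.1, t.2.1, t.2.2.1, t.2.2.2.1, t.2.2.2.2.1, t.2.2.2.2.2.1,
        t.2.2.2.2.2.2⟩
      left_inv := fun g => rfl
      right_inv := fun t => rfl }
  rw [Nat.card_congr f]
  simp only [Nat.card_prod]
  ring

/-- For every prime `p ≥ 5` there is a finite `p`-group `G` such that `(G, G₃)` is a Camina pair and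
`G₄ ≠ 1`, but `(G, G₄)` is not a Camina pair. -/
theorem result (p : ℕ) (hp : p.Prime) (h5 : 5 ≤ p) :
    ∃ (G : Type) (_ : Group G), Nat.card G = p ^ 13 ∧
      IsCaminaPair (gamma G 3) ∧ gamma G 4 ≠ ⊥ ∧ ¬ IsCaminaPair (gamma G 4) := by
  have : Fact p.Prime := ⟨hp⟩
  let E := GaloisField p 2
  have hfin : Finite E := inferInstance
  have hft : Fintype E := Fintype.ofFinite E
  have hchar : ∀ n : ℕ, 0 < n → n < p → ((n : ℕ) : E) ≠ 0 := by
    intro n hn hnp h
    rw [CharP.cast_eq_zero_iff E p n] at h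
    exact absurd (Nat.le_of_dvd hn h) (by omega)
  have h2 : (2 : E) ≠ 0 := by exact_mod_cast hchar 2 (by norm_num) (by omega)
  have h3 : (3 : E) ≠ 0 := by exact_mod_cast hchar 3 (by norm_num) (by omega)
  have hrc : ringChar E ≠ 2 := by
    rw [ringChar.eq E p]
    omega
  obtain ⟨eta, heta⟩ := FiniteField.exists_nonsquare hrc
  have hdet : ∀ s t : E, eta * s ^ 2 = t ^ 2 → s = 0 ∧ t = 0 := by
    intro s t hst
    by_cases hs : s = 0
    · refine ⟨hs, ?_⟩
      rw [hs] at hst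
      have : t ^ 2 = 0 := by
        rw [← hst]
        ring
      exact pow_eq_zero_iff (two_ne_zero) |>.1 this
    · exfalso
      apply heta
      refine ⟨t / s, ?_⟩
      rw [div_mul_div_comm, eq_div_iff (mul_ne_zero hs hs)]
      linear_combination hst
  have hrank : Module.finrank (ZMod p) E = Module.finrank (ZMod p) (Fin 2 → ZMod p) := by
    rw [GaloisField.finrank p (two_ne_zero), Module.finrank_fin_fun]
  let φ : E ≃ₗ[ZMod p] (Fin 2 → ZMod p) := LinearEquiv.ofFinrankEq _ _ hrank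
  let e0 : E →+ ZMod p := (Pi.evalAddMonoidHom (fun _ : Fin 2 => ZMod p) 0).comp
    (φ : E →+ (Fin 2 → ZMod p))
  let e1 : E →+ ZMod p := (Pi.evalAddMonoidHom (fun _ : Fin 2 => ZMod p) 1).comp
    (φ : E →+ (Fin 2 → ZMod p))
  have he0 : Function.Surjective e0 := by
    intro w
    refine ⟨φ.symm ![w, 0], ?_⟩
    show φ (φ.symm ![w, 0]) 0 = w
    rw [LinearEquiv.apply_symm_apply]
    rfl
  have he : ∀ b : E, b ≠ 0 → ∀ w : ZMod p, ∃ b' : E, e0 b' * e1 b - e0 b * e1 b' = w := by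
    intro b hb w
    by_cases h1 : e1 b = 0
    · have h0 : e0 b ≠ 0 := by
        intro h0
        apply hb
        apply φ.injective
        rw [map_zero]
        funext i
        fin_cases i
        · exact h0
        · exact h1
      refine ⟨φ.symm ![0, -(w / e0 b)], ?_⟩
      have e2 : e0 (φ.symm ![0, -(w / e0 b)]) = 0 := by
        show φ (φ.symm ![0, -(w / e0 b)]) 0 = 0
        rw [LinearEquiv.apply_symm_apply]
        rfl
      have e3 : e1 (φ.symm ![0, -(w / e0 b)]) = -(w / e0 b) := by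
        show φ (φ.symm ![0, -(w / e0 b)]) 1 = _
        rw [LinearEquiv.apply_symm_apply]
        rfl
      rw [e2, e3]
      field_simp
      ring
    · refine ⟨φ.symm ![w / e1 b, 0], ?_⟩
      have e2 : e0 (φ.symm ![w / e1 b, 0]) = w / e1 b := by
        show φ (φ.symm ![w / e1 b, 0]) 0 = _
        rw [LinearEquiv.apply_symm_apply]
        rfl
      have e3 : e1 (φ.symm ![w / e1 b, 0]) = 0 := by
        show φ (φ.symm ![w / e1 b, 0]) 1 = _
        rw [LinearEquiv.apply_symm_apply]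
        rfl
      rw [e2, e3]
      field_simp
      ring
  refine ⟨Q eta e0 e1, inferInstance, ?_, camina_three h2 h3 hdet he0 he,
    gamma_four_ne_bot h2 h3 hdet he0, not_camina_four⟩
  rw [card_Q, GaloisField.card p 2 two_ne_zero, Nat.card_zmod]
  ring

end Pool.Agent.Results.MP_15c144_al.MacdonaldCamina
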